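import Mathlib

set_option autoImplicit false
set_option linter.unusedSectionVars false

namespace Pool.Agent.H.MP_7cc102_co

open Finset SimpleGraph

theorem col {ι α : Type} [DecidableEq ι] [DecidableEq α] (A : ι → Finset α) (W : Finset ι)
    (h : ∀ X ⊆ W, X.Nonempty → #X < #(X.biUnion A)) :
    ∃ c : α → Prop, ∀ w ∈ W, (∃ a ∈ A w, c a) ∧ ∃ a ∈ A w, ¬ c a := by
  classical
  induction W using Finset.strongInduction with
  | H W ih =>
  obtain rfl | hW := W.eq_empty_or_nonempty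
  · exact ⟨fun _ => True, by simp⟩
  have hn : ¬ LinearIndependent ℝ fun (a : W.biUnion A) (w : W) =>
      if a.1 ∈ A w then (1 : ℝ) else 0 := fun l => by
    have := l.fintype_card_le_finrank
    have := h W Subset.rfl hW
    simp only [Fintype.card_coe, Module.finrank_fintype_fun_eq_card] at *
    omega
  obtain ⟨g, hg, a₀, ha₀⟩ := Fintype.not_linearIndependent_iff.1 hn
  let x : α → ℝ := fun a => if q : a ∈ W.biUnion A then g ⟨a, q⟩ else 0
  have hx : ∀ w ∈ W, ∑ a ∈ A w, x a = 0 := fun w hw => by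
    have e := congrFun hg ⟨w, hw⟩
    simp only [Finset.sum_apply, Pi.smul_apply, smul_eq_mul, mul_ite, mul_one, mul_zero,
      Pi.zero_apply] at e
    refine Eq.trans ?_ e
    conv_lhs => rw [← inter_eq_right.2 (subset_biUnion_of_mem A hw), ← sum_ite_mem,
      ← sum_coe_sort (W.biUnion A)]
    exact sum_congr rfl fun a _ => by simp only [x, a.2, dif_pos]
  obtain ⟨w₀, hw₀, q₀⟩ := mem_biUnion.1 a₀.2
  obtain ⟨c, hc⟩ := ih {w ∈ W | ∀ a ∈ A w, x a = 0} (filter_ssubset.2 ⟨w₀, hw₀, fun e =>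
    ha₀ (by simpa only [x, a₀.2, dif_pos] using e _ q₀)⟩)
    fun X hX => h X (hX.trans (filter_subset _ _))
  refine ⟨fun a => if x a = 0 then c a else 0 < x a, fun w hw => ?_⟩
  by_cases z : ∀ a ∈ A w, x a = 0
  · obtain ⟨⟨a, p, q⟩, b, r, s⟩ := hc w (mem_filter.2 ⟨hw, z⟩)
    exact ⟨⟨a, p, by simp only [z a p, if_true, q]⟩, b, r, by
      simp only [z b r, if_true, s, not_false_eq_true]⟩
  constructor
  · by_contra k
    refine z ((sum_eq_zero_iff_of_nonpos fun a ha => ?_).1 (hx w hw))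
    by_contra l
    push Not at l
    exact k ⟨a, ha, by simp only [l.ne', if_false, l]⟩
  · by_contra k
    refine z ((sum_eq_zero_iff_of_nonneg fun a ha => ?_).1 (hx w hw))
    by_contra l
    push Not at l
    exact k ⟨a, ha, by simp only [l.ne, if_false, not_lt, l.le]⟩

variable {V : Type} [Fintype V] [DecidableEq V] (G : SimpleGraph V) [DecidableRel G.Adj]

abbrev N (W : Finset V) : Finset V := W.biUnion fun v => G.neighborFinset v

theorem mN {W : Finset V} {u : V} : u ∈ N G W ↔ ∃ v ∈ W, G.Adj v u := by simp [N]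

theorem clos (hG : G.Connected) (S : Finset V) (hS : S.Nonempty)
    (h : ∀ v ∈ S, ∀ u, G.Adj v u → u ∈ S) (u : V) : u ∈ S := by
  obtain ⟨v, hv⟩ := hS
  obtain ⟨p⟩ := hG.preconnected v u
  induction p with
  | nil => exact hv
  | cons a _ ih => exact ih (h _ hv _ a)

theorem cardN (W : Finset V) : #(N G W) + #(W \ N G W) = #W + #(N G W \ W) := by
  have a := card_sdiff_add_card_inter W (N G W)
  have b := card_sdiff_add_card_inter (N G W) W
  rw [inter_comm] at b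
  omega

theorem nbI {W : Finset V} {i u : V} (hi : i ∈ W \ N G W) (h : G.Adj i u) : u ∈ N G W \ W :=
  mem_sdiff.2 ⟨(mN G).2 ⟨i, (mem_sdiff.1 hi).1, h⟩, fun q =>
    (mem_sdiff.1 hi).2 ((mN G).2 ⟨u, q, h.symm⟩)⟩

def CF : Prop := ∀ v a b c, G.Adj v a → G.Adj v b → G.Adj v c → a ≠ b → a ≠ c → b ≠ c →
  G.Adj a b ∨ G.Adj a c ∨ G.Adj b c

theorem cnt (hc : CF G) (d : ℕ) (hd : ∀ v, d ≤ G.degree v) (W : Finset V) :
    d * #(W \ N G W) ≤ 2 * #(N G W \ W) ∧ (2 * #(N G W \ W) ≤ d * #(W \ N G W) →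
      ∀ o ∈ N G W \ W, #{i ∈ W \ N G W | G.Adj i o} = 2 ∧
        ∀ u, G.Adj o u → u ∈ W \ N G W ∪ N G W \ W) := by
  have ind : ∀ i ∈ W \ N G W, ∀ j ∈ W \ N G W, ¬ G.Adj i j := fun i hi j hj a =>
    (mem_sdiff.1 (nbI G hi a)).2 (mem_sdiff.1 hj).1
  have le : ∀ o ∈ N G W \ W, #{i ∈ W \ N G W | G.Adj i o} ≤ 2 := fun o _ => by
    by_contra k
    obtain ⟨a, b, c, ha, hb, hc', p, q, r⟩ := two_lt_card_iff.1 (not_le.1 k)
    rw [mem_filter] at ha hb hc'
    obtain e | e | e := hc o a b c ha.2.symm hb.2.symm hc'.2.symm p q r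
    exacts [ind _ ha.1 _ hb.1 e, ind _ ha.1 _ hc'.1 e, ind _ hb.1 _ hc'.1 e]
  have e := sum_card_bipartiteAbove_eq_sum_card_bipartiteBelow (s := W \ N G W) (t := N G W \ W)
    G.Adj
  have lo : d * #(W \ N G W) ≤ ∑ i ∈ W \ N G W, #((N G W \ W).bipartiteAbove G.Adj i) := by
    rw [mul_comm, ← smul_eq_mul]
    refine card_nsmul_le_sum _ _ _ fun i hi => (hd i).trans (card_le_card fun u hu => ?_)
    rw [mem_neighborFinset] at hu
    exact mem_filter.2 ⟨nbI G hi hu, hu⟩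
  have hi : ∑ o ∈ N G W \ W, #{i ∈ W \ N G W | G.Adj i o} ≤ ∑ o ∈ N G W \ W, 2 := sum_le_sum le
  have e2 : ∑ o ∈ N G W \ W, 2 = 2 * #(N G W \ W) := by simp [mul_comm]
  rw [e] at lo
  refine ⟨lo.trans (hi.trans e2.le), fun t o ho => ?_⟩
  have two := (sum_eq_sum_iff_of_le le).1 (le_antisymm hi (e2.le.trans (t.trans lo))) o ho
  refine ⟨two, fun u hu => ?_⟩
  obtain ⟨a, b, ab, s⟩ := card_eq_two.1 two
  have ha := mem_filter.1 (s.ge (mem_insert_self _ _))
  have hb := mem_filter.1 (s.ge (mem_insert_of_mem (mem_singleton_self _)))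
  by_cases p : a = u
  · exact mem_union_left _ (p ▸ ha.1)
  by_cases q : b = u
  · exact mem_union_left _ (q ▸ hb.1)
  obtain e | e | e := hc o a b u ha.2.symm hb.2.symm hu ab p q
  exacts [absurd e (ind _ ha.1 _ hb.1), mem_union_right _ (nbI G ha.1 e),
    mem_union_right _ (nbI G hb.1 e)]

def TD (S : Finset V) : Prop := ∀ v, ∃ u ∈ S, G.Adj v u

theorem pair (Y Z : Finset V) (h : ∀ X : Finset V, (∀ v ∈ X, ∀ y ∈ Y, ¬ G.Adj v y) →
    X.Nonempty → #X < #(N G X \ Z)) : ∃ S T : Finset V, TD G S ∧ TD G T ∧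
      (∀ v ∈ S, v ∈ T → v ∈ Y) ∧ ∀ v ∈ Z, v ∉ Y → v ∉ S ∧ v ∉ T := by
  classical
  obtain ⟨c, hc⟩ := col (fun v => G.neighborFinset v \ Z) {v | ∀ y ∈ Y, ¬ G.Adj v y}
    fun X hX n => (h X (fun v hv => (mem_filter.1 (hX hv)).2) n).trans_eq (congrArg _ (by
      ext u
      simp only [mem_sdiff, mem_biUnion, exists_and_right, ← and_assoc]))
  refine ⟨Y ∪ univ.filter fun v => v ∉ Z ∧ c v, Y ∪ univ.filter fun v => v ∉ Z ∧ ¬ c v,
    fun v => ?_, fun v => ?_, ?_, ?_⟩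
  rotate_left 2
  · simp only [mem_union, mem_filter, mem_univ, true_and]
    tauto
  · simp only [mem_union, mem_filter, mem_univ, true_and]
    tauto
  all_goals
    by_cases k : ∀ y ∈ Y, ¬ G.Adj v y
    · obtain ⟨⟨a, p, q⟩, b, r, s⟩ := hc v (mem_filter.2 ⟨mem_univ _, k⟩)
      rw [mem_sdiff, mem_neighborFinset] at p r
      first
      | exact ⟨a, mem_union_right _ (mem_filter.2 ⟨mem_univ _, p.2, q⟩), p.1⟩
      | exact ⟨b, mem_union_right _ (mem_filter.2 ⟨mem_univ _, r.2, s⟩), r.1⟩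
    · push Not at k
      obtain ⟨y, p, q⟩ := k
      exact ⟨y, mem_union_left _ p, q⟩

theorem q1 (hG : G.Connected) (hc : CF G) (hd : ∀ v, 2 ≤ G.degree v) :
    ∃ (f : V → V) (S T : V → Finset V), f.Injective ∧ ∀ y, TD G (S y) ∧ TD G (T y) ∧
      ∀ v ∈ S y, v ∈ T y → v = y ∨ v = f y := by
  obtain ⟨f, hf, a⟩ := (all_card_le_biUnion_card_iff_exists_injective
    fun v => G.neighborFinset v).1 fun W => by
      have := (cnt G hc 2 hd W).1
      have := cardN G W
      change #W ≤ #(N G W)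
      omega
  simp only [mem_neighborFinset] at a
  have k := fun y => pair G {y, f y} ∅ fun X hX n => by
    rw [sdiff_empty]
    by_contra l
    have := cardN G X
    have t := (cnt G hc 2 hd X).2 (by omega)
    have u := clos G hG (X ∪ N G X) (n.mono subset_union_left) (fun v hv u e => by
      by_cases q : v ∈ X
      · exact mem_union_right _ ((mN G).2 ⟨v, q, e⟩)
      · obtain r | r := mem_union.1 ((t v (mem_sdiff.2
          ⟨(mem_union.1 hv).resolve_left q, q⟩)).2 u e)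
        exacts [mem_union_left _ (mem_sdiff.1 r).1, mem_union_right _ (mem_sdiff.1 r).1]) y
    obtain r | r := mem_union.1 u
    · exact hX y r (f y) (by simp) (a y)
    · obtain ⟨v, p, q⟩ := (mN G).1 r
      exact hX v p y (by simp) q
  choose S T h1 h2 h3 _ using k
  exact ⟨f, S, T, hf, fun y => ⟨h1 y, h2 y, fun v p q => by simpa using h3 y v p q⟩⟩

def Pend (W : Finset V) (o : V) : Prop :=
  W.Nonempty ∧ o ∉ W ∧ ∀ v ∈ W, ∀ u, G.Adj v u → u ∈ W ∨ u = o

theorem edge (hG : G.Connected) (hd : ∀ v, 3 ≤ G.degree v) : ∃ y z, G.Adj y z ∧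
    (∀ X, y ∉ X → ¬ Pend G X z) ∧ ∀ X, z ∉ X → ¬ Pend G X y := by
  classical
  obtain ⟨o₀⟩ := hG.nonempty
  have nb : ∀ v a, ∃ u, G.Adj v u ∧ u ≠ a := fun v a => by
    obtain ⟨u, p, q⟩ := exists_mem_notMem_of_card_lt_card (s := {a}) (t := G.neighborFinset v)
      (by have := hd v; rw [card_singleton, card_neighborFinset_eq_degree]; omega)
    exact ⟨u, (mem_neighborFinset _ _ _).1 p, fun e => q (mem_singleton.2 e)⟩
  obtain ⟨W, hW, m⟩ := exists_min_image ({W | ∃ o, Pend G W o} : Finset (Finset V)) card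
    ⟨univ.erase o₀, mem_filter.2 ⟨mem_univ _, o₀, by
      obtain ⟨u, -, q⟩ := nb o₀ o₀
      exact ⟨u, by simpa using q⟩, by simp, fun v _ u _ => by simpa using (em (u = o₀)).symm⟩⟩
  obtain ⟨o, ⟨y, hy⟩, ho, hW⟩ := (mem_filter.1 hW).2
  obtain ⟨z, e, q⟩ := nb y o
  have hz := (hW y hy z e).resolve_right q
  have key : ∀ y ∈ W, ∀ z ∈ W, y ≠ z → ∀ X, y ∉ X → ¬ Pend G X z := by
    rintro y hy z hz yz X yX ⟨n, zX, hX⟩
    have mm : ∀ U ⊆ W, ¬ Pend G U z := fun U s p =>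
      (m U (mem_filter.2 ⟨mem_univ _, z, p⟩)).not_gt (card_lt_card ⟨s, fun r => p.2.1 (r hz)⟩)
    by_cases oX : o ∈ X
    · refine mm ((W \ X).erase z) ((erase_subset _ _).trans sdiff_subset) ⟨⟨y, by
        simp [yz, hy, yX]⟩, by simp, fun v hv u a => ?_⟩
      simp only [mem_erase, mem_sdiff] at hv ⊢
      have uX : u ∉ X := fun r => by
        have := hX u r v a.symm
        tauto
      have := hW v hv.2.1 u a
      by_cases r : u = z
      · exact Or.inr r
      · exact Or.inl ⟨r, this.resolve_right fun s => uX (s ▸ oX), uX⟩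
    by_cases n' : (X ∩ W).Nonempty
    · refine mm (X ∩ W) inter_subset_right ⟨n', by simp [zX], fun v hv u a => ?_⟩
      rw [mem_inter] at hv ⊢
      obtain r | r := hX v hv.1 u a
      · exact Or.inl ⟨r, (hW v hv.2 u a).resolve_right fun s => oX (s ▸ r)⟩
      · exact Or.inr r
    refine zX (clos G hG X n (fun v hv u a => (hX v hv u a).resolve_right ?_) z)
    rintro rfl
    obtain r | r := hW u hz v a.symm
    exacts [n' ⟨v, mem_inter.2 ⟨hv, r⟩⟩, oX (r ▸ hv)]
  exact ⟨y, z, e, key y hy z hz e.ne, key z hz y hy e.ne'⟩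

theorem sur (hG : G.Connected) (hc : CF G) (hd : ∀ v, 3 ≤ G.degree v)
    (no : ¬ ∃ S T, TD G S ∧ TD G T ∧ Disjoint S T) (y z : V) (e : G.Adj y z)
    (hp : ∀ X, y ∉ X → ¬ Pend G X z) (X : Finset V)
    (hX : ∀ v ∈ X, ∀ y' ∈ ({y} : Finset V), ¬ G.Adj v y') (n : X.Nonempty) :
    #X < #(N G X \ {z}) := by
  by_contra l
  have c1 := cardN G X
  have c2 := le_card_sdiff {z} (N G X)
  rw [card_singleton] at c2
  obtain ⟨c3, t⟩ := cnt G hc 3 hd X
  have zX : z ∉ X := fun r => hX z r y (mem_singleton_self _) e.symm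
  have yN : y ∉ N G X := fun r => by
    obtain ⟨v, p, q⟩ := (mN G).1 r
    exact hX v p y (mem_singleton_self _) q
  obtain h | h | h : #(X \ N G X) = 0 ∨ #(X \ N G X) = 1 ∨ #(X \ N G X) = 2 := by omega
  · have s := sdiff_eq_empty_iff_subset.1 (card_eq_zero.1 h)
    have : X = N G X \ {z} := eq_of_subset_of_card_le (fun v hv => mem_sdiff.2 ⟨s hv, fun r =>
      zX (mem_singleton.1 r ▸ hv)⟩) (not_lt.1 l)
    refine hp X (fun r => yN (s r)) ⟨n, zX, fun v hv u a => ?_⟩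
    by_cases r : u = z
    · exact Or.inr r
    · exact Or.inl (this.ge (mem_sdiff.2 ⟨(mN G).2 ⟨v, hv, a⟩, by simpa using r⟩))
  · obtain ⟨i, hi⟩ := card_pos.1 (h.ge.trans' le_rfl : 0 < #(X \ N G X))
    have : 3 ≤ #(N G X \ X) :=
      (hd i).trans (card_le_card fun u hu => nbI G hi ((mem_neighborFinset _ _ _).1 hu))
    omega
  have t := t (by omega)
  have all : ∀ o ∈ N G X \ X, ∀ i ∈ X \ N G X, G.Adj i o := fun o ho i hi =>
    (mem_filter.1 ((eq_of_subset_of_card_le (filter_subset _ _)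
      (h.trans (t o ho).1.symm).le).ge hi)).2
  obtain ⟨i, hi, j, hj, ij⟩ := one_lt_card.1 (by omega : 1 < #(X \ N G X))
  obtain ⟨a, ha, b, hb, ab⟩ := one_lt_card.1 (by omega : 1 < #(N G X \ X))
  have u := clos G hG (X \ N G X ∪ N G X \ X) ⟨i, mem_union_left _ hi⟩ fun v hv u e => by
    obtain r | r := mem_union.1 hv
    exacts [mem_union_right _ (nbI G r e), (t v r).2 u e]
  have td : ∀ i ∈ X \ N G X, ∀ a ∈ N G X \ X, TD G {i, a} := fun i hi a ha v => by
    obtain r | r := mem_union.1 (u v)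
    exacts [⟨a, by simp, all a ha v r⟩, ⟨i, by simp, (all v r i hi).symm⟩]
  refine no ⟨_, _, td i hi a ha, td j hj b hb, ?_⟩
  simp [ij, ab, ij.symm, ab.symm, (all b hb i hi).ne, (all a ha j hj).ne',
    (all b hb i hi).ne', (all a ha j hj).ne]

theorem q2 (hG : G.Connected) (hc : CF G) (hd : ∀ v, 3 ≤ G.degree v) :
    ∃ S : Fin 4 → Finset V, (∀ i, TD G (S i)) ∧ ∀ v, #{i | v ∈ S i} ≤ 2 := by
  by_cases no : ∃ S T, TD G S ∧ TD G T ∧ Disjoint S T
  · obtain ⟨S, T, a, b, c⟩ := no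
    refine ⟨![S, T, S, T], fun i => by fin_cases i <;> assumption, fun v => ?_⟩
    have : v ∈ S → v ∉ T := fun h => Finset.disjoint_left.1 c h
    rw [card_filter, Fin.sum_univ_four]
    by_cases p : v ∈ S <;> by_cases q : v ∈ T <;> simp_all
  obtain ⟨y, z, e, p, q⟩ := edge G hG hd
  obtain ⟨S, T, a, b, c, d⟩ := pair G {y} {z} (sur G hG hc hd no y z e p)
  obtain ⟨S', T', a', b', c', d'⟩ := pair G {z} {y} (sur G hG hc hd no z y e.symm q)
  refine ⟨![S, T, S', T'], fun i => by fin_cases i <;> assumption, fun v => ?_⟩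
  have d := d z (mem_singleton_self _) (by simpa using e.ne')
  have d' := d' y (mem_singleton_self _) (by simpa using e.ne)
  have c : v ∈ S → v ∈ T → v ∉ S' ∧ v ∉ T' := fun p q => mem_singleton.1 (c v p q) ▸ d'
  have c' : v ∈ S' → v ∈ T' → v ∉ S ∧ v ∉ T := fun p q => mem_singleton.1 (c' v p q) ▸ d
  rw [card_filter, Fin.sum_univ_four]
  clear * - c c'
  by_cases p : v ∈ S <;> by_cases q : v ∈ T <;> by_cases p' : v ∈ S' <;> by_cases q' : v ∈ T' <;>
    simp_all

end Pool.Agent.H.MP_7cc102_co
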